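import Pool.Agent.Q288.TV.Lin

set_option linter.unusedSectionVars false

open Topology

namespace Pool.Agent.Q288.TV

variable {G : Type*} [Group G] [TopologicalSpace G]
variable {k V : Type*} [Field k] [AddCommGroup V] [Module k V]

/-- the vectors fixed by the subgroup `K` -/
def fixedVectors (ρ : Representation k G V) (K : Subgroup G) : Submodule k V where
  carrier := {v | ∀ g ∈ K, ρ g v = v}
  add_mem' := by
    intro a b ha hb g hg
    rw [map_add, ha g hg, hb g hg]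
  zero_mem' := by intro g _; simp
  smul_mem' := by
    intro c v hv g hg
    rw [map_smul, hv g hg]

/-- smooth, with finite dimensional spaces of vectors fixed by compact open subgroups -/
def IsAdmissible (ρ : Representation k G V) : Prop :=
  IsSmooth ρ ∧ ∀ K : Subgroup G, IsOpen (K : Set G) → IsCompact (K : Set G) →
    FiniteDimensional k (fixedVectors ρ K)

/-- restriction to the fixed points of `σ` -/
def resFixed (ρ : Representation k G V) (σ : G ≃* G) : Representation k (fixed σ) V :=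
  ρ.comp (fixed σ).subtype

/-- the representation on `ker P / range Q` -/
def subquot {H : Type*} [Group H] (τ : Representation k H V) (P Q : V →ₗ[k] V)
    (hP : ∀ h v, P (τ h v) = τ h (P v)) (hQ : ∀ h v, Q (τ h v) = τ h (Q v)) :
    Representation k H
      (LinearMap.ker P ⧸ (LinearMap.range Q).comap (LinearMap.ker P).subtype) :=
  (τ.subrepresentation (LinearMap.ker P) (by
    intro h v hv
    rw [Submodule.mem_comap, LinearMap.mem_ker, hP, LinearMap.mem_ker.mp hv, map_zero])).quotient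
    ((LinearMap.range Q).comap (LinearMap.ker P).subtype) (by
    rintro h ⟨v, hv⟩ ⟨w, hw⟩
    refine ⟨τ h w, ?_⟩
    rw [hQ, hw]
    rfl)

theorem subquot_mk {H : Type*} [Group H] (τ : Representation k H V) (P Q : V →ₗ[k] V)
    (hP : ∀ h v, P (τ h v) = τ h (P v)) (hQ : ∀ h v, Q (τ h v) = τ h (Q v)) (h : H) (v : V)
    (hv : v ∈ LinearMap.ker P) (hv' : τ h v ∈ LinearMap.ker P) :
    subquot τ P Q hP hQ h (Submodule.Quotient.mk ⟨v, hv⟩) = Submodule.Quotient.mk ⟨τ h v, hv'⟩ := rfl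

variable [IsTopologicalGroup G]

theorem smooth_iff {ρ : Representation k G V} :
    IsSmooth ρ ↔ ∀ v, ∃ U : Subgroup G, IsOpen (U : Set G) ∧ ∀ g ∈ U, ρ g v = v := by
  have hstab : ∀ v, ∃ S : Subgroup G, (S : Set G) = {g : G | ρ g v = v} := by
    intro v
    refine ⟨{ carrier := {g : G | ρ g v = v}, mul_mem' := ?_, one_mem' := ?_, inv_mem' := ?_ }, rfl⟩
    · intro a b ha hb
      change ρ (a * b) v = v
      rw [map_mul, Module.End.mul_apply, show ρ b v = v from hb, show ρ a v = v from ha]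
    · change ρ 1 v = v
      simp
    · intro a ha
      change ρ a⁻¹ v = v
      have h2 : ρ a⁻¹ (ρ a v) = v := by
        rw [← Module.End.mul_apply, ← map_mul, inv_mul_cancel, map_one]; rfl
      rw [show ρ a v = v from ha] at h2
      exact h2
  constructor
  · intro h v
    obtain ⟨S, hS⟩ := hstab v
    refine ⟨S, by rw [hS]; exact h v, fun g hg => ?_⟩
    have : g ∈ (S : Set G) := hg
    rw [hS] at this
    exact this
  · intro h v
    obtain ⟨U, hU, hv⟩ := h v
    obtain ⟨S, hS⟩ := hstab v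
    rw [← hS]
    refine Subgroup.isOpen_mono (H₁ := U) ?_ hU
    intro g hg
    have : g ∈ (S : Set G) := by rw [hS]; exact hv g hg
    exact this

theorem subquot_smooth {H : Type*} [Group H] [TopologicalSpace H] [IsTopologicalGroup H]
    {τ : Representation k H V} (hτ : IsSmooth τ) (P Q : V →ₗ[k] V)
    (hP : ∀ h v, P (τ h v) = τ h (P v)) (hQ : ∀ h v, Q (τ h v) = τ h (Q v)) :
    IsSmooth (subquot τ P Q hP hQ) := by
  rw [smooth_iff] at hτ ⊢
  intro t
  obtain ⟨⟨v, hv⟩, rfl⟩ := Submodule.Quotient.mk_surjective _ t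
  obtain ⟨U, hU, hUv⟩ := hτ v
  refine ⟨U, hU, fun g hg => ?_⟩
  have h1 : τ g v ∈ LinearMap.ker P := by rw [hUv g hg]; exact hv
  rw [subquot_mk τ P Q hP hQ g v hv h1]
  congr 1
  exact Subtype.ext (hUv g hg)

theorem res_smooth {ρ : Representation k G V} (hρ : IsSmooth ρ) (σ : G ≃* G) :
    IsSmooth (resFixed ρ σ) := by
  intro v
  exact (hρ v).preimage continuous_subtype_val

/-- classes fixed by `U^σ` are represented by vectors fixed by `U` -/
theorem subquot_surj [T2Space G] {p : ℕ} [hp : Fact p.Prime] [CharP k p] {σ : G ≃* G}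
    (hσc : Continuous σ)
    {ρ : Representation k G V} (hρ : IsSmooth ρ) (P Q : V →ₗ[k] V)
    (hP : ∀ h v, P (resFixed ρ σ h v) = resFixed ρ σ h (P v))
    (hQ : ∀ h v, Q (resFixed ρ σ h v) = resFixed ρ σ h (Q v))
    {U : Subgroup G} (hU : Nice p σ U)
    (key : ∀ v, (∀ c ∈ U, σ c = c → ρ c v = v) → P v = 0 →
      ∃ w, (∀ u ∈ U, ρ u w = w) ∧ P w = 0 ∧ w - v ∈ LinearMap.range Q)
    (t : LinearMap.ker P ⧸ (LinearMap.range Q).comap (LinearMap.ker P).subtype)
    (ht : ∀ c : fixed σ, (c : G) ∈ U → subquot (resFixed ρ σ) P Q hP hQ c t = t) :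
    ∃ w : LinearMap.ker P, (∀ u ∈ U, ρ u (w : V) = w) ∧ Submodule.Quotient.mk w = t := by
  obtain ⟨⟨v, hv⟩, rfl⟩ := Submodule.Quotient.mk_surjective _ t
  have hvP : P v = 0 := LinearMap.mem_ker.mp hv
  -- the class of `v` is fixed by `C`
  have h2 : ∀ c ∈ U, σ c = c → ρ c v - v ∈ LinearMap.range Q := by
    intro c hc hσc
    have h3 := ht ⟨c, hσc⟩ hc
    have h4 : resFixed ρ σ ⟨c, hσc⟩ v ∈ LinearMap.ker P := by
      rw [LinearMap.mem_ker, hP, hvP, map_zero]
    rw [subquot_mk _ P Q hP hQ _ v hv h4, Submodule.Quotient.eq] at h3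
    exact h3
  -- averaging over `C`
  let C : Subgroup G := U ⊓ fixed σ
  have hCc : IsCompact (C : Set G) := by
    have h3 : (C : Set G) = (U : Set G) ∩ {g | σ g = g} := rfl
    rw [h3]
    exact hU.cpt.inter_right (isClosed_eq hσc continuous_id)
  obtain ⟨W, hW, hWv⟩ := hU.small _ ((hρ v).mem_nhds (show ρ 1 v = v by simp))
  have hWfix : ∀ d ∈ W, d ∈ C → ρ d v = v := fun d hd _ => hWv hd
  have hcard : ¬ p ∣ Nat.card (C ⧸ W.subgroupOf C) :=
    card_prime hCc hW.opn (fun u hu => hW.norm u hu.1) (fun u hu => hW.iso u hu.1)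
  have := sub_fin hCc hW.opn
  have := Fintype.ofFinite (C ⧸ W.subgroupOf C)
  set m : k := (Nat.card (C ⧸ W.subgroupOf C) : k) with hm
  have hm0 : m ≠ 0 := by
    intro h
    exact hcard ((CharP.cast_eq_zero_iff k p _).mp h)
  let v' : V := m⁻¹ • cosetSum ρ C W v
  have hv'C : ∀ c ∈ U, σ c = c → ρ c v' = v' := by
    intro c hc hσc'
    change ρ c (m⁻¹ • cosetSum ρ C W v) = m⁻¹ • cosetSum ρ C W v
    rw [map_smul, cosetSum_fixed ρ hWfix (show c ∈ C from ⟨hc, hσc'⟩)]
  have hv'P : P v' = 0 := by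
    change P (m⁻¹ • cosetSum ρ C W v) = 0
    unfold cosetSum
    rw [map_smul, map_sum]
    rw [Finset.sum_eq_zero, smul_zero]
    intro x _
    have h5 := hP ⟨((Quotient.out x : C) : G), (Quotient.out x : C).2.2⟩ v
    have h6 : P (ρ ((Quotient.out x : C) : G) v) = ρ ((Quotient.out x : C) : G) (P v) := h5
    rw [h6, hvP, map_zero]
  have hv'v : v' - v ∈ LinearMap.range Q := by
    have h5 : v = m⁻¹ • ∑ _x : C ⧸ W.subgroupOf C, v := by
      rw [Finset.sum_const, Finset.card_univ, ← Nat.card_eq_fintype_card, ← Nat.cast_smul_eq_nsmul k,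
        ← hm, smul_smul, inv_mul_cancel₀ hm0, one_smul]
    have h6 : v' - v = m⁻¹ • ∑ x : C ⧸ W.subgroupOf C, (ρ ((Quotient.out x : C) : G) v - v) := by
      rw [Finset.sum_sub_distrib, smul_sub, ← h5]
      rfl
    rw [h6]
    apply Submodule.smul_mem
    apply Submodule.sum_mem
    intro x _
    exact h2 _ (Quotient.out x : C).2.1 (Quotient.out x : C).2.2
  obtain ⟨w, hwU, hwP, hwv⟩ := key v' hv'C hv'P
  refine ⟨⟨w, LinearMap.mem_ker.mpr hwP⟩, hwU, ?_⟩
  rw [Submodule.Quotient.eq]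
  change w - v ∈ LinearMap.range Q
  have h7 : w - v = (w - v') + (v' - v) := by abel
  rw [h7]
  exact Submodule.add_mem _ hwv hv'v

/-- the abstract form of the theorem -/
theorem subquot_adm [T2Space G] {p : ℕ} [hp : Fact p.Prime] [CharP k p] {σ : G ≃* G}
    (hσc : Continuous σ)
    (hG : ∀ O ∈ 𝓝 (1 : G), ∃ U : Subgroup G, Nice p σ U ∧ (U : Set G) ⊆ O)
    {ρ : Representation k G V} (hρ : IsAdmissible ρ) (P Q : V →ₗ[k] V)
    (hP : ∀ h v, P (resFixed ρ σ h v) = resFixed ρ σ h (P v))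
    (hQ : ∀ h v, Q (resFixed ρ σ h v) = resFixed ρ σ h (Q v))
    (key : ∀ U : Subgroup G, Nice p σ U → ∀ v, (∀ c ∈ U, σ c = c → ρ c v = v) → P v = 0 →
      ∃ w, (∀ u ∈ U, ρ u w = w) ∧ P w = 0 ∧ w - v ∈ LinearMap.range Q) :
    IsAdmissible (subquot (resFixed ρ σ) P Q hP hQ) := by
  refine ⟨subquot_smooth (res_smooth hρ.1 σ) P Q hP hQ, fun K hK _ => ?_⟩
  obtain ⟨O, hO, hOK⟩ := isOpen_induced_iff.mp hK
  have h1O : (1 : G) ∈ O := by
    have : (1 : fixed σ) ∈ (K : Set (fixed σ)) := K.one_mem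
    rw [← hOK] at this
    exact this
  obtain ⟨U, hU, hUO⟩ := hG O (hO.mem_nhds h1O)
  have hCK : ∀ c : fixed σ, (c : G) ∈ U → c ∈ K := by
    intro c hcU
    have : c ∈ (K : Set (fixed σ)) := by
      rw [← hOK]; exact hUO hcU
    exact this
  have hfd : FiniteDimensional k (fixedVectors ρ U) := hρ.2 U hU.opn hU.cpt
  let E : Submodule k (LinearMap.ker P) := (fixedVectors ρ U).comap (LinearMap.ker P).subtype
  have hE : FiniteDimensional k E := by
    let f : E →ₗ[k] fixedVectors ρ U :=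
      { toFun := fun x => ⟨((x : LinearMap.ker P) : V), x.2⟩
        map_add' := fun _ _ => rfl
        map_smul' := fun _ _ => rfl }
    refine FiniteDimensional.of_injective f ?_
    intro a b hab
    apply Subtype.ext
    apply Subtype.ext
    exact congrArg (fun z : fixedVectors ρ U => (z : V)) hab
  have hle : fixedVectors (subquot (resFixed ρ σ) P Q hP hQ) K ≤
      E.map (Submodule.mkQ ((LinearMap.range Q).comap (LinearMap.ker P).subtype)) := by
    intro t ht
    obtain ⟨w, hw, hwt⟩ := subquot_surj hσc hρ.1 P Q hP hQ hU (key U hU) t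
      (fun c hc => ht c (hCK c hc))
    exact ⟨w, hw, hwt⟩
  exact Submodule.finiteDimensional_of_le hle

/-- averages over `U` of vectors commute with `A` -/
theorem exists_average [T2Space G] {p : ℕ} [hp : Fact p.Prime] [CharP k p] {σ : G ≃* G}
    (hσ : ∀ g, σ^[p] g = g)
    {ρ : Representation k G V} (hρ : IsSmooth ρ) {A : V →ₗ[k] V} (hAp : A ^ p = 1)
    (hA : ∀ g v, A (ρ g v) = ρ (σ g) (A v))
    {U : Subgroup G} (hU : Nice p σ U) (y : V) :
    ∃ f : V → V, (∀ i : ℕ, (∀ u ∈ U, ρ u (f ((A ^ i) y)) = f ((A ^ i) y)) ∧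
      A (f ((A ^ i) y)) = f ((A ^ (i + 1)) y)) ∧ (∀ z, (∀ u ∈ U, ρ u z = z) → f z = z) ∧
      (∀ a b, f (a + b) = f a + f b) := by
  classical
  have hst : (stabA ρ A y : Set G) ∈ 𝓝 (1 : G) :=
    (stabA_open hρ hp.out.pos hAp y).mem_nhds (stabA ρ A y).one_mem
  obtain ⟨W, hW, hWy⟩ := hU.small _ hst
  have hfix : ∀ i : ℕ, ∀ d ∈ W, d ∈ U → ρ d ((A ^ i) y) = (A ^ i) y := fun i d hd _ => hWy hd i
  have hcard : ¬ p ∣ Nat.card (U ⧸ W.subgroupOf U) :=
    card_prime hU.cpt hW.opn hW.norm hW.iso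
  have := sub_fin hU.cpt hW.opn
  have := Fintype.ofFinite (U ⧸ W.subgroupOf U)
  set m : k := (Nat.card (U ⧸ W.subgroupOf U) : k) with hm
  have hm0 : m ≠ 0 := by
    intro h
    exact hcard ((CharP.cast_eq_zero_iff k p _).mp h)
  -- the permutation of the cosets
  let τ : U → U := fun u => ⟨σ u, hU.stab u u.2⟩
  let s : (U ⧸ W.subgroupOf U) → (U ⧸ W.subgroupOf U) := Quotient.map' τ (by
    intro a b hab
    rw [QuotientGroup.leftRel_apply] at hab ⊢
    rw [Subgroup.mem_subgroupOf] at hab ⊢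
    have h1 := hW.stab _ hab
    have h2 : (((τ a)⁻¹ * τ b : U) : G) = σ (((a⁻¹ * b : U)) : G) := by
      simp only [τ, Subgroup.coe_mul, Subgroup.coe_inv, map_mul, map_inv]
    rw [h2]; exact h1)
  have hs1 : ∀ u : U, s (QuotientGroup.mk u) = QuotientGroup.mk (τ u) := fun u => rfl
  have hsn : ∀ n : ℕ, ∀ u : U, s^[n] (QuotientGroup.mk u) = QuotientGroup.mk (τ^[n] u) := by
    intro n
    induction n with
    | zero => intro u; rfl
    | succ n ih =>
      intro u
      rw [Function.iterate_succ', Function.comp_apply, Function.iterate_succ', Function.comp_apply,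
        ih u, hs1]
  have hτ : ∀ n : ℕ, ∀ u : U, ((τ^[n] u : U) : G) = σ^[n] (u : G) := by
    intro n
    induction n with
    | zero => intro u; rfl
    | succ n ih =>
      intro u
      rw [Function.iterate_succ', Function.comp_apply, Function.iterate_succ', Function.comp_apply,
        ← ih u]
  have hsp : ∀ x, s^[p] x = x := by
    intro x
    obtain ⟨u, rfl⟩ := QuotientGroup.mk_surjective x
    rw [hsn]
    congr 1
    apply Subtype.ext
    rw [hτ, hσ]
  have hsbij : Function.Bijective s := by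
    have hp1 : p - 1 + 1 = p := Nat.sub_add_cancel hp.out.one_lt.le
    constructor
    · intro a b hab
      have h1 : s^[p - 1] (s a) = s^[p - 1] (s b) := by rw [hab]
      rw [← Function.iterate_succ_apply, ← Function.iterate_succ_apply, Nat.succ_eq_add_one, hp1,
        hsp, hsp] at h1
      exact h1
    · intro a
      refine ⟨s^[p - 1] a, ?_⟩
      rw [← Function.iterate_succ_apply' (f := s), Nat.succ_eq_add_one, hp1, hsp]
  refine ⟨fun z => m⁻¹ • cosetSum ρ U W z, fun i => ⟨fun u hu => ?_, ?_⟩, fun z hz => ?_,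
    fun a b => ?_⟩
  · rw [map_smul, cosetSum_fixed ρ (hfix i) hu]
  · rw [map_smul]
    congr 1
    unfold cosetSum
    rw [map_sum]
    rw [← Equiv.sum_comp (Equiv.ofBijective s hsbij)
      (fun x => ρ ((Quotient.out x : U) : G) ((A ^ (i + 1)) y))]
    apply Finset.sum_congr rfl
    intro x _
    obtain ⟨u, rfl⟩ := QuotientGroup.mk_surjective x
    rw [Equiv.ofBijective_apply, hs1, out_apply ρ (hfix i), out_apply ρ (hfix (i + 1)), hA,
      pow_succ', Module.End.mul_apply]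
  · change m⁻¹ • cosetSum ρ U W z = z
    unfold cosetSum
    have h1 : ∑ x : U ⧸ W.subgroupOf U, ρ ((Quotient.out x : U) : G) z =
        ∑ _x : U ⧸ W.subgroupOf U, z :=
      Finset.sum_congr rfl (fun x _ => hz _ (Quotient.out x : U).2)
    rw [h1, Finset.sum_const, Finset.card_univ, ← Nat.card_eq_fintype_card, ← Nat.cast_smul_eq_nsmul k,
      ← hm, smul_smul, inv_mul_cancel₀ hm0, one_smul]
  · change m⁻¹ • cosetSum ρ U W (a + b) = m⁻¹ • cosetSum ρ U W a + m⁻¹ • cosetSum ρ U W b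
    rw [← smul_add]
    congr 1
    unfold cosetSum
    rw [← Finset.sum_add_distrib]
    apply Finset.sum_congr rfl
    intro x _
    rw [map_add]

theorem nrm_comm {p : ℕ} {ρ : Representation k G V} {σ : G ≃* G} {A : V →ₗ[k] V}
    (hA : ∀ g v, A (ρ g v) = ρ (σ g) (A v)) (h : fixed σ) (v : V) :
    nrm p A (resFixed ρ σ h v) = resFixed ρ σ h (nrm p A v) := by
  have h2 : ∀ i : ℕ, σ^[i] (h : G) = h := by
    intro i
    induction i with
    | zero => rfl
    | succ i ih => rw [Function.iterate_succ', Function.comp_apply, ih, h.2]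
  rw [nrm_apply, nrm_apply, map_sum]
  apply Finset.sum_congr rfl
  intro i _
  have h1 := pow_comm hA i (h : G) v
  rw [h2] at h1
  exact h1

theorem one_sub_comm {ρ : Representation k G V} {σ : G ≃* G} {A : V →ₗ[k] V}
    (hA : ∀ g v, A (ρ g v) = ρ (σ g) (A v)) (h : fixed σ) (v : V) :
    (1 - A) (resFixed ρ σ h v) = resFixed ρ σ h ((1 - A) v) := by
  have h1 : A (resFixed ρ σ h v) = resFixed ρ σ h (A v) := by
    have h2 := hA (h : G) v
    rw [h.2] at h2
    exact h2
  simp only [LinearMap.sub_apply, Module.End.one_apply, map_sub, h1]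

/-- `T^0 = ker (1 - A) / range N` -/
noncomputable def T0 (p : ℕ) (ρ : Representation k G V) (σ : G ≃* G) (A : V →ₗ[k] V)
    (hA : ∀ g v, A (ρ g v) = ρ (σ g) (A v)) :=
  subquot (resFixed ρ σ) (1 - A) (nrm p A) (one_sub_comm hA) (nrm_comm hA)

/-- `T^1 = ker N / range (1 - A)` -/
noncomputable def T1 (p : ℕ) (ρ : Representation k G V) (σ : G ≃* G) (A : V →ₗ[k] V)
    (hA : ∀ g v, A (ρ g v) = ρ (σ g) (A v)) :=
  subquot (resFixed ρ σ) (nrm p A) (1 - A) (nrm_comm hA) (one_sub_comm hA)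

theorem tate_adm [T2Space G] {p : ℕ} [hp : Fact p.Prime] [CharP k p] {σ : G ≃* G}
    (hσc : Continuous σ) (hσ : ∀ g, σ^[p] g = g)
    (hG : ∀ O ∈ 𝓝 (1 : G), ∃ U : Subgroup G, Nice p σ U ∧ (U : Set G) ⊆ O)
    {ρ : Representation k G V} (hρ : IsAdmissible ρ) {A : V →ₗ[k] V} (hAp : A ^ p = 1)
    (hA : ∀ g v, A (ρ g v) = ρ (σ g) (A v)) :
    IsAdmissible (T0 p ρ σ A hA) ∧ IsAdmissible (T1 p ρ σ A hA) := by
  constructor
  · refine subquot_adm hσc hG hρ _ _ _ _ ?_
    intro U hU v hv hPv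
    have h1 : A v = v := by
      have : (1 - A) v = v - A v := rfl
      rw [this, sub_eq_zero] at hPv
      exact hPv.symm
    obtain ⟨w, hw1, hw2, hw3⟩ := (main_congr hσc hσ hρ.1 hAp hA hU v hv).1 h1
    refine ⟨w, hw1, ?_, hw3⟩
    change w - A w = 0
    rw [hw2, sub_self]
  · refine subquot_adm hσc hG hρ _ _ _ _ ?_
    intro U hU v hv hPv
    exact (main_congr hσc hσ hρ.1 hAp hA hU v hv).2 hPv

/-- injectivity, norms -/
theorem inj_nrm [T2Space G] {p : ℕ} [hp : Fact p.Prime] [CharP k p] {σ : G ≃* G}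
    (hσ : ∀ g, σ^[p] g = g)
    {ρ : Representation k G V} (hρ : IsSmooth ρ) {A : V →ₗ[k] V} (hAp : A ^ p = 1)
    (hA : ∀ g v, A (ρ g v) = ρ (σ g) (A v))
    {U : Subgroup G} (hU : Nice p σ U) (w : V) (hw : ∀ u ∈ U, ρ u w = w)
    (hwN : w ∈ LinearMap.range (nrm p A)) : ∃ y, (∀ u ∈ U, ρ u y = y) ∧ nrm p A y = w := by
  obtain ⟨y, hy⟩ := hwN
  obtain ⟨f, hf1, hf2, hf3⟩ := exists_average hσ hρ hAp hA hU y
  have hf0 : f 0 = 0 := by
    have := hf3 0 0
    rw [add_zero] at this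
    exact left_eq_add.mp this
  have hiter : ∀ i : ℕ, (A ^ i) (f y) = f ((A ^ i) y) := by
    intro i
    induction i with
    | zero => simp
    | succ i ih => rw [pow_succ', Module.End.mul_apply, ih, (hf1 i).2, ← pow_succ']
  have hsum : ∀ t : Finset ℕ, ∑ i ∈ t, f ((A ^ i) y) = f (∑ i ∈ t, (A ^ i) y) := by
    intro t
    induction t using Finset.induction_on with
    | empty => simp [hf0]
    | insert a t ha ih => rw [Finset.sum_insert ha, Finset.sum_insert ha, hf3, ih]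
  refine ⟨f y, ?_, ?_⟩
  · have := (hf1 0).1
    simpa using this
  · rw [nrm_apply]
    simp_rw [hiter]
    rw [hsum, ← nrm_apply, hy, hf2 w hw]

/-- injectivity, differences -/
theorem inj_sub [T2Space G] {p : ℕ} [hp : Fact p.Prime] [CharP k p] {σ : G ≃* G}
    (hσ : ∀ g, σ^[p] g = g)
    {ρ : Representation k G V} (hρ : IsSmooth ρ) {A : V →ₗ[k] V} (hAp : A ^ p = 1)
    (hA : ∀ g v, A (ρ g v) = ρ (σ g) (A v))
    {U : Subgroup G} (hU : Nice p σ U) (w : V) (hw : ∀ u ∈ U, ρ u w = w)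
    (hwN : w ∈ LinearMap.range (1 - A)) : ∃ y, (∀ u ∈ U, ρ u y = y) ∧ (1 - A) y = w := by
  obtain ⟨y, hy⟩ := hwN
  obtain ⟨f, hf1, hf2, hf3⟩ := exists_average hσ hρ hAp hA hU y
  have hy' : y - A y = w := hy
  have h0 := hf1 0
  simp only [pow_zero, Module.End.one_apply, zero_add, pow_one] at h0
  refine ⟨f y, h0.1, ?_⟩
  change f y - A (f y) = w
  have h1 : f y = w + f (A y) := by
    have h2 : y = w + A y := by rw [← hy']; abel
    conv_lhs => rw [h2]
    rw [hf3, hf2 w hw]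
  rw [h0.2, h1]
  abel

/-- The natural map from the subquotient `ker P / range Q` of the vectors fixed by `U` to the vectors
fixed by `U ∩ G^σ` in the subquotient `ker P / range Q` is bijective. -/
def ComputedBy (ρ : Representation k G V) (σ : G ≃* G) (P Q : V →ₗ[k] V)
    (hP : ∀ h v, P (resFixed ρ σ h v) = resFixed ρ σ h (P v))
    (hQ : ∀ h v, Q (resFixed ρ σ h v) = resFixed ρ σ h (Q v)) (U : Subgroup G) : Prop :=
  (∀ t, (∀ c : fixed σ, (c : G) ∈ U → subquot (resFixed ρ σ) P Q hP hQ c t = t) ↔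
    ∃ w : LinearMap.ker P, (∀ u ∈ U, ρ u (w : V) = w) ∧ Submodule.Quotient.mk w = t) ∧
  ∀ w, (∀ u ∈ U, ρ u w = w) → w ∈ LinearMap.range Q → ∃ y, (∀ u ∈ U, ρ u y = y) ∧ Q y = w

theorem computedBy [T2Space G] {p : ℕ} [hp : Fact p.Prime] [CharP k p] {σ : G ≃* G}
    (hσc : Continuous σ) (hσ : ∀ g, σ^[p] g = g)
    {ρ : Representation k G V} (hρ : IsSmooth ρ) {A : V →ₗ[k] V} (hAp : A ^ p = 1)
    (hA : ∀ g v, A (ρ g v) = ρ (σ g) (A v)) {U : Subgroup G} (hU : Nice p σ U) :
    ComputedBy ρ σ (1 - A) (nrm p A) (one_sub_comm hA) (nrm_comm hA) U ∧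
    ComputedBy ρ σ (nrm p A) (1 - A) (nrm_comm hA) (one_sub_comm hA) U := by
  have hback : ∀ (P Q : V →ₗ[k] V) (hP : ∀ h v, P (resFixed ρ σ h v) = resFixed ρ σ h (P v))
      (hQ : ∀ h v, Q (resFixed ρ σ h v) = resFixed ρ σ h (Q v)) t,
      (∃ w : LinearMap.ker P, (∀ u ∈ U, ρ u (w : V) = w) ∧ Submodule.Quotient.mk w = t) →
      ∀ c : fixed σ, (c : G) ∈ U → subquot (resFixed ρ σ) P Q hP hQ c t = t := by
    rintro P Q hP hQ t ⟨⟨w, hwP⟩, hw, rfl⟩ c hc
    have h1 : resFixed ρ σ c w = w := hw c hc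
    have h2 : resFixed ρ σ c w ∈ LinearMap.ker P := by rw [h1]; exact hwP
    rw [subquot_mk _ P Q hP hQ c w hwP h2]
    congr 1
    exact Subtype.ext h1
  refine ⟨⟨fun t => ⟨fun ht => ?_, hback _ _ _ _ t⟩, ?_⟩, ⟨fun t => ⟨fun ht => ?_, hback _ _ _ _ t⟩, ?_⟩⟩
  · refine subquot_surj hσc hρ _ _ _ _ hU ?_ t ht
    intro v hv hPv
    have h1 : A v = v := by
      have : (1 - A) v = v - A v := rfl
      rw [this, sub_eq_zero] at hPv
      exact hPv.symm
    obtain ⟨w, hw1, hw2, hw3⟩ := (main_congr hσc hσ hρ hAp hA hU v hv).1 h1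
    refine ⟨w, hw1, ?_, hw3⟩
    change w - A w = 0
    rw [hw2, sub_self]
  · exact fun w hw hwN => inj_nrm hσ hρ hAp hA hU w hw hwN
  · exact subquot_surj hσc hρ _ _ _ _ hU (fun v hv hPv => (main_congr hσc hσ hρ hAp hA hU v hv).2 hPv) t ht
  · exact fun w hw hwN => inj_sub hσ hρ hAp hA hU w hw hwN

end Pool.Agent.Q288.TV
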