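import Pool.Agent.Q288.TV.Mat
import Pool.Agent.Q288.TV.Adm

set_option linter.unusedSectionVars false

open Topology Matrix

namespace Pool.Agent.Q288.TV

section

variable {G : Type*} [Group G] [TopologicalSpace G] [IsTopologicalGroup G]

/-- the largest `σ`-stable subgroup of `S` -/
def core (σ : G ≃* G) (S : Subgroup G) : Subgroup G where
  carrier := {g | ∀ i : ℕ, σ^[i] g ∈ S}
  mul_mem' := by
    intro a b ha hb i
    rw [iterate_map_mul]
    exact S.mul_mem (ha i) (hb i)
  one_mem' := by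
    intro i
    rw [iterate_map_one]
    exact S.one_mem
  inv_mem' := by
    intro a ha i
    rw [iterate_map_inv]
    exact S.inv_mem (ha i)

theorem mem_core {σ : G ≃* G} {S : Subgroup G} {g : G} : g ∈ core σ S ↔ ∀ i : ℕ, σ^[i] g ∈ S :=
  Iff.rfl

theorem core_le {σ : G ≃* G} {S : Subgroup G} : core σ S ≤ S := fun _ hg => hg 0

theorem core_stab {σ : G ≃* G} {S : Subgroup G} {g : G} (hg : g ∈ core σ S) : σ g ∈ core σ S := by
  intro i
  rw [← Function.iterate_succ_apply]
  exact hg (i + 1)

theorem core_open {σ : G ≃* G} (hσc : Continuous σ) {p : ℕ} (hp : 0 < p)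
    (hσ : ∀ g, σ^[p] g = g) {S : Subgroup G} (hS : IsOpen (S : Set G)) :
    IsOpen (core σ S : Set G) := by
  have h1 : (core σ S : Set G) = ⋂ i ∈ Finset.range p, (σ^[i]) ⁻¹' (S : Set G) := by
    ext g
    simp only [Set.mem_iInter]
    constructor
    · intro hg i _
      exact hg i
    · intro hg i
      have h2 : σ^[i] g = σ^[i % p] g := by
        have h3 : ∀ m : ℕ, ∀ x : G, σ^[p * m] x = x := by
          intro m
          induction m with
          | zero => intro x; rfl
          | succ m ih =>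
            intro x
            rw [Nat.mul_succ, Function.iterate_add_apply, hσ, ih]
        conv_lhs => rw [← Nat.mod_add_div i p, Function.iterate_add_apply, h3]
      rw [h2]
      exact hg (i % p) (Finset.mem_range.mpr (Nat.mod_lt _ hp))
  rw [h1]
  apply isOpen_biInter_finset
  intro i _
  exact hS.preimage (hσc.iterate i)

end

variable {F : Type*} [NontriviallyNormedField F] [IsUltrametricDist F] [ProperSpace F]
variable {n : ℕ}

theorem nice_of_closed {p : ℕ} [hp : Fact p.Prime] (hF : ‖(p : F)‖ = 1)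
    (G : Subgroup (GL (Fin n) F)) (hG : IsClosed (G : Set (GL (Fin n) F)))
    (σ : G ≃* G) (hσc : Continuous σ) (hσ : ∀ g, σ^[p] g = g) :
    ∀ O ∈ 𝓝 (1 : G), ∃ U : Subgroup G, Nice p σ U ∧ (U : Set G) ⊆ O := by
  have hsmall : ∀ O ∈ 𝓝 (1 : G), ∃ s, ∃ hs : 0 < s ∧ s ≤ 1,
      (((cong n F s hs).subgroupOf G : Subgroup G) : Set G) ⊆ O := by
    intro O hO
    rw [nhds_subtype_eq_comap, Filter.mem_comap] at hO
    obtain ⟨T, hT, hTO⟩ := hO
    obtain ⟨s, hs, h⟩ := cong_small hT
    exact ⟨s, hs, fun g hg => hTO (h hg)⟩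
  have hopen : ∀ s (hs : 0 < s ∧ s ≤ 1),
      IsOpen (((cong n F s hs).subgroupOf G : Subgroup G) : Set G) := by
    intro s hs
    exact (cong_open hs).preimage continuous_subtype_val
  have hcpt : ∀ s (hs : 0 < s ∧ s ≤ 1),
      IsCompact (((cong n F s hs).subgroupOf G : Subgroup G) : Set G) := by
    intro s hs
    exact hG.isClosedEmbedding_subtypeVal.isCompact_preimage (cong_cpt hs)
  intro O hO
  obtain ⟨r, hr, hrO⟩ := hsmall O hO
  refine ⟨core σ ((cong n F r hr).subgroupOf G), ⟨?_, ?_, ?_, ?_⟩, fun g hg => hrO (core_le hg)⟩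
  · exact core_open hσc hp.out.pos hσ (hopen r hr)
  · exact (hcpt r hr).of_isClosed_subset
      (Subgroup.isClosed_of_isOpen _ (core_open hσc hp.out.pos hσ (hopen r hr))) core_le
  · intro u hu
    exact core_stab hu
  · intro O' hO'
    obtain ⟨s0, hs0, hs0O⟩ := hsmall O' hO'
    have hs : 0 < min s0 r ∧ min s0 r ≤ 1 := ⟨lt_min hs0.1 hr.1, (min_le_left _ _).trans hs0.2⟩
    refine ⟨core σ ((cong n F (min s0 r) hs).subgroupOf G), ⟨?_, ?_, ?_, ?_, ?_⟩, ?_⟩
    · intro g hg i
      have h1 := hg i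
      rw [Subgroup.mem_subgroupOf] at h1 ⊢
      exact cong_mono (min_le_right _ _) h1
    · exact core_open hσc hp.out.pos hσ (hopen _ hs)
    · intro u hu w hw i
      have h1 := hu i
      have h2 := hw i
      rw [Subgroup.mem_subgroupOf] at h1 h2 ⊢
      rw [iterate_map_mul, iterate_map_mul, iterate_map_inv]
      exact cong_norm h1 h2
    · intro w hw
      exact core_stab hw
    · intro u hu huw i
      have h1 := hu i
      have h2 := huw i
      rw [Subgroup.mem_subgroupOf] at h1 h2 ⊢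
      rw [iterate_map_pow] at h2
      exact cong_iso hF h1 h2
    · intro g hg
      apply hs0O
      have h1 := core_le hg
      have h2 : (g : GL (Fin n) F) ∈ cong n F (min s0 r) hs := h1
      exact cong_mono (hr := hs0) (min_le_left _ _) h2

theorem norm_p_eq_one {p l : ℕ} [hp : Fact p.Prime] [hl : Fact l.Prime] [CharP F l] (hpl : l ≠ p) :
    ‖(p : F)‖ = 1 := by
  have h1 : (p : ZMod l) ≠ 0 := by
    intro h
    rw [ZMod.natCast_eq_zero_iff] at h
    exact hpl ((Nat.prime_dvd_prime_iff_eq hl.out hp.out).mp h)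
  have h2 : (p : ZMod l) ^ (l - 1) = 1 := ZMod.pow_card_sub_one_eq_one h1
  have h3 : (p : F) ^ (l - 1) = 1 := by
    have := congrArg (ZMod.castHom (dvd_refl l) F) h2
    simpa using this
  have h4 : ‖(p : F)‖ ^ (l - 1) = 1 := by rw [← norm_pow, h3, norm_one]
  exact (pow_eq_one_iff_of_nonneg (norm_nonneg _) (by have := hl.out.two_le; omega)).mp h4

end Pool.Agent.Q288.TV
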