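import Mathlib

set_option linter.unusedSectionVars false

open Topology

namespace Pool.Agent.Q288.TV

variable {G : Type*} [Group G] [TopologicalSpace G] [IsTopologicalGroup G]

/-- `W` is an open subgroup of `U`, stable under `σ`, normalized by `U`, and the quotient `U / W` has
no element of order `p`. -/
structure Good (p : ℕ) (σ : G ≃* G) (U W : Subgroup G) : Prop where
  le : W ≤ U
  opn : IsOpen (W : Set G)
  norm : ∀ u ∈ U, ∀ w ∈ W, u * w * u⁻¹ ∈ W
  stab : ∀ w ∈ W, σ w ∈ W
  iso : ∀ u ∈ U, u ^ p ∈ W → u ∈ W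

/-- `U` is a compact open subgroup of `G`, stable under `σ`, with arbitrarily small good subgroups. -/
structure Nice (p : ℕ) (σ : G ≃* G) (U : Subgroup G) : Prop where
  opn : IsOpen (U : Set G)
  cpt : IsCompact (U : Set G)
  stab : ∀ u ∈ U, σ u ∈ U
  small : ∀ O ∈ 𝓝 (1 : G), ∃ W : Subgroup G, Good p σ U W ∧ (W : Set G) ⊆ O

/-- the fixed subgroup -/
def fixed (σ : G ≃* G) : Subgroup G where
  carrier := {g | σ g = g}
  mul_mem' := by
    intro a b ha hb
    simp only [Set.mem_ofPred_eq] at *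
    rw [map_mul, ha, hb]
  one_mem' := by simp
  inv_mem' := by
    intro a ha
    simp only [Set.mem_ofPred_eq] at *
    rw [map_inv, ha]

theorem mem_fixed {σ : G ≃* G} {g : G} : g ∈ fixed σ ↔ σ g = g := Iff.rfl

theorem sub_fin {U W : Subgroup G} (hU : IsCompact (U : Set G)) (hW : IsOpen (W : Set G)) :
    Finite (U ⧸ W.subgroupOf U) := by
  have : CompactSpace U := isCompact_iff_compactSpace.mp hU
  apply Subgroup.quotient_finite_of_isOpen
  exact hW.preimage continuous_subtype_val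

/-- index prime to `p` -/
theorem card_prime {p : ℕ} [hp : Fact p.Prime] {U W : Subgroup G} (hU : IsCompact (U : Set G))
    (hW : IsOpen (W : Set G)) (hn : ∀ u ∈ U, ∀ w ∈ W, u * w * u⁻¹ ∈ W)
    (hi : ∀ u ∈ U, u ^ p ∈ W → u ∈ W) : ¬ p ∣ Nat.card (U ⧸ W.subgroupOf U) := by
  have := sub_fin hU hW
  have : (W.subgroupOf U).Normal := by
    refine ⟨fun w hw u => ?_⟩
    rw [Subgroup.mem_subgroupOf] at hw ⊢
    simpa using hn u u.2 w hw
  intro hd
  obtain ⟨x, hx⟩ := exists_prime_orderOf_dvd_card' p hd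
  obtain ⟨u, rfl⟩ := QuotientGroup.mk_surjective x
  have h1 : (QuotientGroup.mk u : U ⧸ W.subgroupOf U) ^ p = 1 := by
    rw [← hx]; exact pow_orderOf_eq_one _
  rw [← QuotientGroup.mk_pow, QuotientGroup.eq_one_iff, Subgroup.mem_subgroupOf] at h1
  have h2 := hi u u.2 (by simpa using h1)
  have h3 : (QuotientGroup.mk u : U ⧸ W.subgroupOf U) = 1 := by
    rw [QuotientGroup.eq_one_iff, Subgroup.mem_subgroupOf]; exact h2
  rw [h3, orderOf_one] at hx
  exact hp.out.one_lt.ne hx

/-- an approximate fixed point in a coset -/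
theorem approx_fixed {p : ℕ} [hp : Fact p.Prime] {σ : G ≃* G} (hσ : ∀ g, σ^[p] g = g)
    {U D W : Subgroup G} (hUc : IsCompact (U : Set G)) (hD : D ≤ U) (hDo : IsOpen (D : Set G))
    (hDσ : ∀ d ∈ D, σ d ∈ D) (hW : Good p σ U W) (hWD : W ≤ D) (g : G) (hc : g⁻¹ * σ g ∈ D) :
    ∃ d ∈ D, (g * d)⁻¹ * σ (g * d) ∈ W := by
  have hDc : IsCompact (D : Set G) := hUc.of_isClosed_subset (Subgroup.isClosed_of_isOpen D hDo) hD
  have hcard : ¬ p ∣ Nat.card (D ⧸ W.subgroupOf D) :=
    card_prime hDc hW.opn (fun u hu => hW.norm u (hD hu)) (fun u hu => hW.iso u (hD hu))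
  have := sub_fin hDc hW.opn
  classical
  have := Fintype.ofFinite (D ⧸ W.subgroupOf D)
  let τ : D → D := fun d => ⟨g⁻¹ * σ g * σ d, D.mul_mem hc (hDσ d d.2)⟩
  have hτ : ∀ n : ℕ, ∀ d : D, ((τ^[n] d : D) : G) = g⁻¹ * σ^[n] (g * d) := by
    intro n
    induction n with
    | zero => intro d; simp
    | succ n ih =>
      intro d
      rw [Function.iterate_succ', Function.comp_apply, Function.iterate_succ', Function.comp_apply]
      change g⁻¹ * σ g * σ ((τ^[n] d : D) : G) = _
      rw [ih d, map_mul, map_inv]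
      group
  have hτp : ∀ d : D, τ^[p] d = d := by
    intro d
    apply Subtype.ext
    rw [hτ, hσ]; group
  let f : (D ⧸ W.subgroupOf D) → (D ⧸ W.subgroupOf D) := Quotient.map' τ (by
    intro a b hab
    rw [QuotientGroup.leftRel_apply] at hab ⊢
    rw [Subgroup.mem_subgroupOf] at hab ⊢
    have h1 := hW.stab _ hab
    have h2 : (((τ a)⁻¹ * τ b : D) : G) = σ (((a⁻¹ * b : D)) : G) := by
      simp only [τ, Subgroup.coe_mul, Subgroup.coe_inv, map_mul, map_inv]
      group
    rw [h2]; exact h1)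
  have hf : ∀ n : ℕ, ∀ d : D, f^[n] (QuotientGroup.mk d) = QuotientGroup.mk (τ^[n] d) := by
    intro n
    induction n with
    | zero => intro d; rfl
    | succ n ih =>
      intro d
      rw [Function.iterate_succ', Function.comp_apply, Function.iterate_succ', Function.comp_apply,
        ih d]
      rfl
  have hfp : ∀ x, f^[p] x = x := by
    intro x
    obtain ⟨d, rfl⟩ := QuotientGroup.mk_surjective x
    rw [hf, hτp]
  have hf1 : (show Function.End (D ⧸ W.subgroupOf D) from f) ^ (p ^ 1) = 1 := by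
    rw [pow_one]
    funext x
    have hend : ∀ n : ℕ, ∀ y, ((show Function.End (D ⧸ W.subgroupOf D) from f) ^ n) y = f^[n] y := by
      intro n
      induction n with
      | zero => intro y; rfl
      | succ n ih =>
        intro y
        rw [pow_succ', Function.iterate_succ', Function.comp_apply, ← ih y]
        rfl
    rw [hend]
    exact hfp x
  have hmod := Equiv.Perm.card_fixedPoints_modEq hf1
  by_contra hcon
  push Not at hcon
  have hempty : IsEmpty (Function.fixedPoints f) := by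
    refine ⟨fun ⟨x, hx⟩ => ?_⟩
    obtain ⟨d, rfl⟩ := QuotientGroup.mk_surjective x
    have h1 : (QuotientGroup.mk (τ d) : D ⧸ W.subgroupOf D) = QuotientGroup.mk d := hx
    rw [eq_comm, QuotientGroup.eq, Subgroup.mem_subgroupOf] at h1
    refine hcon d d.2 ?_
    have h2 : ((d⁻¹ * τ d : D) : G) = (g * d)⁻¹ * σ (g * d) := by
      simp only [τ, Subgroup.coe_mul, Subgroup.coe_inv, map_mul]
      group
    rw [← h2]; exact h1
  have h0 : Fintype.card (Function.fixedPoints f) = 0 := Fintype.card_eq_zero_iff.mpr hempty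
  apply hcard
  rw [Nat.card_eq_fintype_card]
  have h3 : Fintype.card (D ⧸ W.subgroupOf D) ≡ 0 [MOD p] := by
    rw [← h0]; convert hmod
  exact (Nat.modEq_zero_iff_dvd).mp h3

/-- a fixed point in a coset -/
theorem Nice.exists_fixed [T2Space G] {p : ℕ} [hp : Fact p.Prime] {σ : G ≃* G} (hσc : Continuous σ)
    (hσ : ∀ g, σ^[p] g = g)
    {U D : Subgroup G} (hU : Nice p σ U) (hD : D ≤ U) (hDo : IsOpen (D : Set G))
    (hDσ : ∀ d ∈ D, σ d ∈ D) (g : G) (hc : g⁻¹ * σ g ∈ D) :
    ∃ d ∈ D, σ (g * d) = g * d := by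
  have hDc : IsCompact (D : Set G) :=
    hU.cpt.of_isClosed_subset (Subgroup.isClosed_of_isOpen D hDo) hD
  by_contra hcon
  push Not at hcon
  let F : G → G := fun d => (g * d)⁻¹ * σ (g * d)
  have hF : Continuous F := by
    exact ((continuous_const.mul continuous_id).inv).mul
      (hσc.comp (continuous_const.mul continuous_id))
  have h1 : IsCompact (F '' (D : Set G)) := hDc.image hF
  have h2 : (1 : G) ∉ F '' (D : Set G) := by
    rintro ⟨d, hd, h⟩
    apply hcon d hd
    have : (g * d)⁻¹ * σ (g * d) = 1 := h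
    rw [inv_mul_eq_one] at this
    exact this.symm
  have h3 : (F '' (D : Set G))ᶜ ∈ 𝓝 (1 : G) := h1.isClosed.isOpen_compl.mem_nhds h2
  have h4 : (D : Set G) ∈ 𝓝 (1 : G) := hDo.mem_nhds D.one_mem
  obtain ⟨W, hW, hWO⟩ := hU.small _ (Filter.inter_mem h3 h4)
  obtain ⟨d, hd, h5⟩ := approx_fixed hσ hU.cpt hD hDo hDσ hW (fun w hw => (hWO hw).2) g hc
  exact (hWO h5).1 ⟨d, hd, rfl⟩

end Pool.Agent.Q288.TV
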