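import Pool.Agent.Q288.TV.Grp

set_option linter.unusedSectionVars false

open Topology

namespace Pool.Agent.Q288.TV

/-- sums over a set without fixed points of a permutation of order `p` -/
theorem sum_mem_of_orbits {X M k : Type*} [DecidableEq X] [Ring k] [AddCommGroup M] [Module k M]
    {p : ℕ} [hp : Fact p.Prime] (s : X → X) (hs : ∀ x, s^[p] x = x) (g : X → M)
    (B : Submodule k M) (hB : ∀ x, ∑ i ∈ Finset.range p, g (s^[i] x) ∈ B) :
    ∀ (n : ℕ) (T : Finset X), T.card ≤ n → (∀ x ∈ T, s x ∈ T) → (∀ x ∈ T, s x ≠ x) →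
      ∑ x ∈ T, g x ∈ B := by
  intro n
  induction n with
  | zero =>
    intro T hT _ _
    have : T = ∅ := Finset.card_eq_zero.mp (by omega)
    subst this
    simp
  | succ n ih =>
    intro T hT hst hfx
    by_cases hne : T = ∅
    · subst hne; simp
    obtain ⟨x, hx⟩ := Finset.nonempty_iff_ne_empty.mpr hne
    have hit : ∀ i : ℕ, ∀ y ∈ T, s^[i] y ∈ T := by
      intro i
      induction i with
      | zero => intro y hy; exact hy
      | succ i ih2 =>
        intro y hy
        rw [Function.iterate_succ', Function.comp_apply]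
        exact hst _ (ih2 y hy)
    have hsinj : Function.Injective s := by
      intro a b hab
      have h1 : s^[p - 1] (s a) = s^[p - 1] (s b) := by rw [hab]
      have hp1 : p - 1 + 1 = p := Nat.sub_add_cancel hp.out.one_lt.le
      rw [← Function.iterate_succ_apply, ← Function.iterate_succ_apply, Nat.succ_eq_add_one, hp1,
        hs, hs] at h1
      exact h1
    have key : ∀ i j : ℕ, i < j → j < p → s^[i] x ≠ s^[j] x := by
      intro i j hij hjp heq
      have h1 : s^[i] (s^[j - i] x) = s^[i] x := by
        rw [← Function.iterate_add_apply, Nat.add_sub_cancel' hij.le, heq]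
      have h2 : Function.IsPeriodicPt s (j - i) x := (hsinj.iterate i) h1
      have h3 : Function.IsPeriodicPt s p x := hs x
      have h4 := h2.gcd h3
      have h5 : Nat.gcd (j - i) p = 1 := by
        have : Nat.Coprime (j - i) p :=
          (Nat.Coprime.symm ((Nat.Prime.coprime_iff_not_dvd hp.out).mpr
            (fun hd => by have := Nat.le_of_dvd (by omega) hd; omega)))
        exact this
      rw [h5] at h4
      exact hfx x hx h4
    let O : Finset X := (Finset.range p).image (fun i => s^[i] x)
    have hO : ∑ y ∈ O, g y = ∑ i ∈ Finset.range p, g (s^[i] x) := by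
      apply Finset.sum_image
      intro i hi j hj hij
      simp only [Finset.coe_range, Set.mem_Iio] at hi hj
      by_contra hne2
      rcases Nat.lt_or_gt_of_ne hne2 with h | h
      · exact key i j h hj hij
      · exact key j i h hi hij.symm
    have hOT : O ⊆ T := by
      intro y hy
      obtain ⟨i, _, rfl⟩ := Finset.mem_image.mp hy
      exact hit i x hx
    have hxO : x ∈ O := Finset.mem_image.mpr ⟨0, Finset.mem_range.mpr hp.out.pos, rfl⟩
    have hsO : ∀ y, s y ∈ O → y ∈ O := by
      intro y hy
      obtain ⟨i, hi, h⟩ := Finset.mem_image.mp hy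
      rcases Nat.eq_zero_or_pos i with h0 | h0
      · subst h0
        refine Finset.mem_image.mpr ⟨p - 1, Finset.mem_range.mpr (Nat.sub_lt hp.out.pos one_pos), ?_⟩
        apply hsinj
        have hp1 : p - 1 + 1 = p := Nat.sub_add_cancel hp.out.one_lt.le
        rw [← Function.iterate_succ_apply' (f := s), Nat.succ_eq_add_one, hp1, hs, ← h]
        rfl
      · refine Finset.mem_image.mpr ⟨i - 1, Finset.mem_range.mpr ?_, ?_⟩
        · have := Finset.mem_range.mp hi; omega
        · apply hsinj
          rw [← Function.iterate_succ_apply' (f := s), Nat.succ_eq_add_one, Nat.sub_add_cancel h0]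
          exact h
    have h6 : ∑ y ∈ T \ O, g y ∈ B := by
      apply ih
      · have := Finset.card_sdiff_add_card_eq_card hOT
        have h7 : 0 < O.card := Finset.card_pos.mpr ⟨x, hxO⟩
        omega
      · intro y hy
        rw [Finset.mem_sdiff] at hy ⊢
        exact ⟨hst y hy.1, fun h => hy.2 (hsO y h)⟩
      · intro y hy
        exact hfx y (Finset.mem_sdiff.mp hy).1
    rw [← Finset.sum_sdiff hOT]
    exact B.add_mem h6 (by rw [hO]; exact hB x)

section

variable {G : Type*} [Group G] [TopologicalSpace G] [IsTopologicalGroup G]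
variable {k V : Type*} [Field k] [AddCommGroup V] [Module k V]

/-- the sum over the cosets -/
noncomputable def cosetSum (ρ : Representation k G V) (U D : Subgroup G)
    [Fintype (U ⧸ D.subgroupOf U)] (y : V) : V :=
  ∑ x : U ⧸ D.subgroupOf U, ρ ((Quotient.out x : U) : G) y

theorem out_apply (ρ : Representation k G V) {U D : Subgroup G} {y : V}
    (hy : ∀ d ∈ D, d ∈ U → ρ d y = y) (u : U) :
    ρ ((Quotient.out (QuotientGroup.mk u : U ⧸ D.subgroupOf U) : U) : G) y = ρ (u : G) y := by
  have h1 : (QuotientGroup.mk (Quotient.out (QuotientGroup.mk u : U ⧸ D.subgroupOf U)) :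
      U ⧸ D.subgroupOf U) = QuotientGroup.mk u := Quotient.out_eq' _
  rw [QuotientGroup.eq, Subgroup.mem_subgroupOf] at h1
  set z := (Quotient.out (QuotientGroup.mk u : U ⧸ D.subgroupOf U)) with hz
  have h2 := hy _ h1 (z⁻¹ * u).2
  have h3 : (u : G) = z * ((z⁻¹ * u : U) : G) := by
    simp only [Subgroup.coe_mul, Subgroup.coe_inv]; group
  rw [h3, map_mul, Module.End.mul_apply, h2]

theorem cosetSum_fixed (ρ : Representation k G V) {U D : Subgroup G}
    [Fintype (U ⧸ D.subgroupOf U)] {y : V} (hy : ∀ d ∈ D, d ∈ U → ρ d y = y) {u : G}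
    (hu : u ∈ U) : ρ u (cosetSum ρ U D y) = cosetSum ρ U D y := by
  unfold cosetSum
  rw [map_sum]
  let e : (U ⧸ D.subgroupOf U) ≃ (U ⧸ D.subgroupOf U) := MulAction.toPerm (⟨u, hu⟩ : U)
  rw [← Equiv.sum_comp e (fun x => ρ ((Quotient.out x : U) : G) y)]
  apply Finset.sum_congr rfl
  intro x _
  obtain ⟨w, rfl⟩ := QuotientGroup.mk_surjective x
  have he : e (QuotientGroup.mk w) = QuotientGroup.mk ((⟨u, hu⟩ : U) * w) := rfl
  rw [he, out_apply ρ hy, out_apply ρ hy, Subgroup.coe_mul, map_mul, Module.End.mul_apply]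

/-- the norm operator -/
noncomputable def nrm (p : ℕ) (A : V →ₗ[k] V) : V →ₗ[k] V := ∑ i ∈ Finset.range p, A ^ i

theorem nrm_apply (p : ℕ) (A : V →ₗ[k] V) (v : V) :
    nrm p A v = ∑ i ∈ Finset.range p, (A ^ i) v := by
  unfold nrm
  rw [LinearMap.sum_apply]

theorem pow_comm {ρ : Representation k G V} {σ : G ≃* G} {A : V →ₗ[k] V}
    (hA : ∀ g v, A (ρ g v) = ρ (σ g) (A v)) (i : ℕ) (g : G) (v : V) :
    (A ^ i) (ρ g v) = ρ (σ^[i] g) ((A ^ i) v) := by
  induction i with
  | zero => simp
  | succ i ih =>
    rw [pow_succ', Module.End.mul_apply, ih, hA, Function.iterate_succ', Function.comp_apply,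
      Module.End.mul_apply]

/-- the subgroup fixing `v`, `A v`, ... -/
def stabA (ρ : Representation k G V) (A : V →ₗ[k] V) (v : V) : Subgroup G where
  carrier := {g | ∀ i : ℕ, ρ g ((A ^ i) v) = (A ^ i) v}
  mul_mem' := by
    intro a b ha hb i
    rw [map_mul, Module.End.mul_apply, hb i, ha i]
  one_mem' := by intro i; simp
  inv_mem' := by
    intro a ha i
    have h1 := ha i
    have h2 : ρ a⁻¹ (ρ a ((A ^ i) v)) = (A ^ i) v := by
      rw [← Module.End.mul_apply, ← map_mul, inv_mul_cancel, map_one]; rfl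
    rw [h1] at h2
    exact h2

/-- every vector has an open stabiliser -/
def IsSmooth (ρ : Representation k G V) : Prop := ∀ v, IsOpen {g : G | ρ g v = v}

theorem stabA_open {ρ : Representation k G V} (hρ : IsSmooth ρ) {p : ℕ} (hp : 0 < p)
    {A : V →ₗ[k] V} (hAp : A ^ p = 1) (v : V) : IsOpen (stabA ρ A v : Set G) := by
  have h1 : (stabA ρ A v : Set G) = ⋂ i ∈ Finset.range p, {g : G | ρ g ((A ^ i) v) = (A ^ i) v} := by
    ext g
    simp only [Set.mem_iInter]
    constructor
    · intro hg i _
      exact hg i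
    · intro hg i
      have h2 : A ^ i = A ^ (i % p) := by
        conv_lhs => rw [← Nat.div_add_mod i p, pow_add, pow_mul, hAp, one_pow, one_mul]
      rw [h2]
      exact hg (i % p) (Finset.mem_range.mpr (Nat.mod_lt _ hp))
  rw [h1]
  apply isOpen_biInter_finset
  intro i _
  exact hρ _

/-- the main congruence -/
theorem main_congr [T2Space G] {p : ℕ} [hp : Fact p.Prime] {σ : G ≃* G} (hσc : Continuous σ)
    (hσ : ∀ g, σ^[p] g = g) {ρ : Representation k G V} (hρ : IsSmooth ρ)
    {A : V →ₗ[k] V} (hAp : A ^ p = 1) (hA : ∀ g v, A (ρ g v) = ρ (σ g) (A v))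
    {U : Subgroup G} (hU : Nice p σ U) (v : V) (hv : ∀ c ∈ U, σ c = c → ρ c v = v) :
    (A v = v → ∃ w, (∀ u ∈ U, ρ u w = w) ∧ A w = w ∧ w - v ∈ LinearMap.range (nrm p A)) ∧
    (nrm p A v = 0 → ∃ w, (∀ u ∈ U, ρ u w = w) ∧ nrm p A w = 0 ∧
      w - v ∈ LinearMap.range (1 - A)) := by
  classical
  set D : Subgroup G := U ⊓ stabA ρ A v with hDdef
  have hDU : D ≤ U := inf_le_left
  have hDo : IsOpen (D : Set G) := by
    rw [hDdef, Subgroup.coe_inf]
    exact hU.opn.inter (stabA_open hρ hp.out.pos hAp v)
  have hDσ : ∀ d ∈ D, σ d ∈ D := by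
    intro d hd
    refine ⟨hU.stab d hd.1, fun i => ?_⟩
    have h1 : (A ^ i) v = A ((A ^ (i + (p - 1))) v) := by
      rw [← Module.End.mul_apply, ← pow_succ', add_assoc, Nat.sub_add_cancel hp.out.one_lt.le,
        pow_add, hAp, mul_one]
    rw [h1, ← hA, hd.2]
  have hDfix : ∀ i : ℕ, ∀ d ∈ D, d ∈ U → ρ d ((A ^ i) v) = (A ^ i) v := fun i d hd _ => hd.2 i
  have hDfix0 : ∀ d ∈ D, d ∈ U → ρ d v = v := by
    intro d hd hdU
    have := hDfix 0 d hd hdU
    simpa using this
  have := sub_fin hU.cpt hDo
  have := Fintype.ofFinite (U ⧸ D.subgroupOf U)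
  -- the permutation of the cosets
  let τ : U → U := fun u => ⟨σ u, hU.stab u u.2⟩
  have hτ : ∀ n : ℕ, ∀ u : U, ((τ^[n] u : U) : G) = σ^[n] (u : G) := by
    intro n
    induction n with
    | zero => intro u; rfl
    | succ n ih =>
      intro u
      rw [Function.iterate_succ', Function.comp_apply, Function.iterate_succ', Function.comp_apply,
        ← ih u]
  let s : (U ⧸ D.subgroupOf U) → (U ⧸ D.subgroupOf U) := Quotient.map' τ (by
    intro a b hab
    rw [QuotientGroup.leftRel_apply] at hab ⊢
    rw [Subgroup.mem_subgroupOf] at hab ⊢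
    have h1 := hDσ _ hab
    have h2 : (((τ a)⁻¹ * τ b : U) : G) = σ (((a⁻¹ * b : U)) : G) := by
      simp only [τ, Subgroup.coe_mul, Subgroup.coe_inv, map_mul, map_inv]
    rw [h2]; exact h1)
  have hs1 : ∀ u : U, s (QuotientGroup.mk u) = QuotientGroup.mk (τ u) := fun u => rfl
  have hsn : ∀ n : ℕ, ∀ u : U, s^[n] (QuotientGroup.mk u) = QuotientGroup.mk (τ^[n] u) := by
    intro n
    induction n with
    | zero => intro u; rfl
    | succ n ih =>
      intro u
      rw [Function.iterate_succ', Function.comp_apply, Function.iterate_succ', Function.comp_apply,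
        ih u, hs1]
  have hsp : ∀ x, s^[p] x = x := by
    intro x
    obtain ⟨u, rfl⟩ := QuotientGroup.mk_surjective x
    rw [hsn]
    congr 1
    apply Subtype.ext
    rw [hτ, hσ]
  have hsbij : Function.Bijective s := by
    have hp1 : p - 1 + 1 = p := Nat.sub_add_cancel hp.out.one_lt.le
    constructor
    · intro a b hab
      have h1 : s^[p - 1] (s a) = s^[p - 1] (s b) := by rw [hab]
      rw [← Function.iterate_succ_apply, ← Function.iterate_succ_apply, Nat.succ_eq_add_one, hp1,
        hsp, hsp] at h1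
      exact h1
    · intro a
      refine ⟨s^[p - 1] a, ?_⟩
      rw [← Function.iterate_succ_apply' (f := s), Nat.succ_eq_add_one, hp1, hsp]
  -- the only fixed point is the base point
  have hfix : ∀ x, s x = x → x = QuotientGroup.mk 1 := by
    intro x hx
    obtain ⟨u, rfl⟩ := QuotientGroup.mk_surjective x
    rw [hs1, eq_comm, QuotientGroup.eq, Subgroup.mem_subgroupOf] at hx
    have h1 : (u : G)⁻¹ * σ (u : G) ∈ D := by simpa [τ] using hx
    obtain ⟨d, hd, h2⟩ := hU.exists_fixed hσc hσ hDU hDo hDσ (u : G) h1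
    have h3 : (u : G) * d ∈ U := U.mul_mem u.2 (hDU hd)
    have h4 : (u : G) * d ∈ D := by
      refine ⟨h3, fun i => ?_⟩
      have h5 : ρ ((u : G) * d) v = v := hv _ h3 h2
      have h6 := pow_comm hA i ((u : G) * d) v
      rw [h5] at h6
      have h7 : σ^[i] ((u : G) * d) = (u : G) * d := by
        clear h6
        induction i with
        | zero => rfl
        | succ i ih => rw [Function.iterate_succ', Function.comp_apply, ih, h2]
      rw [h7] at h6
      exact h6.symm
    have h8 : (u : G) ∈ D := by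
      have := D.mul_mem h4 (D.inv_mem hd)
      rwa [mul_inv_cancel_right] at this
    rw [QuotientGroup.eq, Subgroup.mem_subgroupOf]
    have h9 : ((u⁻¹ * 1 : U) : G) = (u : G)⁻¹ := by simp
    rw [h9]
    exact D.inv_mem h8
  -- sums
  have hAS : ∀ i : ℕ, A (cosetSum ρ U D ((A ^ i) v)) = cosetSum ρ U D ((A ^ (i + 1)) v) := by
    intro i
    unfold cosetSum
    rw [map_sum]
    rw [← Equiv.sum_comp (Equiv.ofBijective s hsbij)
      (fun x => ρ ((Quotient.out x : U) : G) ((A ^ (i + 1)) v))]
    apply Finset.sum_congr rfl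
    intro x _
    obtain ⟨u, rfl⟩ := QuotientGroup.mk_surjective x
    rw [Equiv.ofBijective_apply, hs1, out_apply ρ (hDfix i), out_apply ρ (hDfix (i + 1)), hA,
      pow_succ', Module.End.mul_apply]
  have hAS' : ∀ i : ℕ, (A ^ i) (cosetSum ρ U D v) = cosetSum ρ U D ((A ^ i) v) := by
    intro i
    induction i with
    | zero => simp
    | succ i ih => rw [pow_succ', Module.End.mul_apply, ih, hAS, ← pow_succ']
  have horb : ∀ u : U, ∀ i : ℕ, i < p →
      ρ ((Quotient.out (s^[i] (QuotientGroup.mk u)) : U) : G) v =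
        (A ^ i) (ρ (u : G) ((A ^ (p - i)) v)) := by
    intro u i hi
    have h1 : (A ^ i) ((A ^ (p - i)) v) = v := by
      rw [← Module.End.mul_apply, ← pow_add, Nat.add_sub_cancel' hi.le, hAp]
      rfl
    rw [hsn, out_apply ρ hDfix0, hτ, pow_comm hA, h1]
  have hsplit : ∀ B : Submodule k V,
      (∀ x, ∑ i ∈ Finset.range p, ρ ((Quotient.out (s^[i] x) : U) : G) v ∈ B) →
      cosetSum ρ U D v - v ∈ B := by
    intro B hB
    have h1 := sum_mem_of_orbits (k := k) s hsp (fun x => ρ ((Quotient.out x : U) : G) v) B hB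
      _ (Finset.univ.erase (QuotientGroup.mk 1)) le_rfl (by
        intro x hx
        rw [Finset.mem_erase] at hx ⊢
        refine ⟨fun h => hx.1 ?_, Finset.mem_univ _⟩
        apply hsbij.1
        rw [h, hs1]
        congr 1
        apply Subtype.ext
        simp [τ]) (by
        intro x hx h
        exact (Finset.mem_erase.mp hx).1 (hfix x h))
    have h2 : cosetSum ρ U D v =
        (∑ x ∈ Finset.univ.erase (QuotientGroup.mk 1 : U ⧸ D.subgroupOf U),
          ρ ((Quotient.out x : U) : G) v) + v := by
      unfold cosetSum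
      rw [← Finset.sum_erase_add _ _ (Finset.mem_univ (QuotientGroup.mk 1 : U ⧸ D.subgroupOf U))]
      congr 1
      rw [out_apply ρ hDfix0]
      simp
    rw [h2, add_sub_cancel_right]
    exact h1
  constructor
  · intro hAv
    have hAiv : ∀ i : ℕ, (A ^ i) v = v := by
      intro i
      induction i with
      | zero => simp
      | succ i ih => rw [pow_succ', Module.End.mul_apply, ih, hAv]
    refine ⟨cosetSum ρ U D v, fun u hu => cosetSum_fixed ρ hDfix0 hu, ?_, ?_⟩
    · have := hAS' 1
      rw [pow_one, hAv] at this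
      exact this
    · apply hsplit
      intro x
      obtain ⟨u, rfl⟩ := QuotientGroup.mk_surjective x
      refine ⟨ρ (u : G) v, ?_⟩
      rw [nrm_apply]
      apply Finset.sum_congr rfl
      intro i hi
      rw [horb u i (Finset.mem_range.mp hi), hAiv]
  · intro hNv
    have hcs : ∀ (y : ℕ → V) (t : Finset ℕ), (∀ i, ∀ d ∈ D, d ∈ U → ρ d (y i) = y i) →
        ∑ i ∈ t, cosetSum ρ U D (y i) = cosetSum ρ U D (∑ i ∈ t, y i) := by
      intro y t _
      unfold cosetSum
      rw [Finset.sum_comm]
      apply Finset.sum_congr rfl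
      intro x _
      rw [map_sum]
    refine ⟨cosetSum ρ U D v, fun u hu => cosetSum_fixed ρ hDfix0 hu, ?_, ?_⟩
    · rw [nrm_apply]
      simp_rw [hAS']
      rw [hcs _ _ hDfix, ← nrm_apply, hNv]
      unfold cosetSum
      simp
    · apply hsplit
      intro x
      obtain ⟨u, rfl⟩ := QuotientGroup.mk_surjective x
      have hpow : ∀ i : ℕ, ∀ y : V, (A ^ i) y - y ∈ LinearMap.range (1 - A) := by
        intro i
        induction i with
        | zero => intro y; simp
        | succ i ih =>
          intro y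
          have h1 : (A ^ (i + 1)) y - y = (A ^ i) (A y) - A y + (A y - y) := by
            rw [pow_succ, Module.End.mul_apply]; abel
          rw [h1]
          refine Submodule.add_mem _ (ih _) ⟨-y, ?_⟩
          simp only [LinearMap.sub_apply, Module.End.one_apply, map_neg]
          abel
      have h2 : ∑ i ∈ Finset.range p, ρ ((Quotient.out (s^[i] (QuotientGroup.mk u)) : U) : G) v =
          ∑ i ∈ Finset.range p, ((A ^ i) (ρ (u : G) ((A ^ (p - i)) v)) -
            ρ (u : G) ((A ^ (p - i)) v)) + ρ (u : G) (A (nrm p A v)) := by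
        have h3 : A (nrm p A v) = ∑ i ∈ Finset.range p, (A ^ (p - i)) v := by
          rw [nrm_apply, map_sum, ← Finset.sum_range_reflect]
          apply Finset.sum_congr rfl
          intro i hi
          have hi' := Finset.mem_range.mp hi
          rw [← Module.End.mul_apply, ← pow_succ']
          congr 2
          omega
        rw [h3, map_sum, ← Finset.sum_add_distrib]
        apply Finset.sum_congr rfl
        intro i hi
        rw [horb u i (Finset.mem_range.mp hi)]
        abel
      rw [h2, hNv, map_zero, map_zero, add_zero]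
      exact Submodule.sum_mem _ (fun i _ => hpow i _)

end

end Pool.Agent.Q288.TV
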