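import Pool.Agent.Q288.TV.Grp

set_option linter.unusedSectionVars false

open Topology Matrix

namespace Pool.Agent.Q288.TV

attribute [local instance] Matrix.normedAddCommGroup

variable {F : Type*} [NontriviallyNormedField F] [IsUltrametricDist F]
variable {n : ℕ}

theorem mnorm_add (X Y : Matrix (Fin n) (Fin n) F) : ‖X + Y‖ ≤ max ‖X‖ ‖Y‖ := by
  rw [Matrix.norm_le_iff (le_max_of_le_left (norm_nonneg _))]
  intro i j
  rw [Matrix.add_apply]
  exact (IsUltrametricDist.norm_add_le_max _ _).trans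
    (max_le_max (Matrix.norm_entry_le_entrywise_sup_norm X)
      (Matrix.norm_entry_le_entrywise_sup_norm Y))

theorem mnorm_mul (X Y : Matrix (Fin n) (Fin n) F) : ‖X * Y‖ ≤ ‖X‖ * ‖Y‖ := by
  rw [Matrix.norm_le_iff (mul_nonneg (norm_nonneg _) (norm_nonneg _))]
  intro i j
  rw [Matrix.mul_apply]
  apply IsUltrametricDist.norm_sum_le_of_forall_le_of_nonneg
    (mul_nonneg (norm_nonneg _) (norm_nonneg _))
  intro l _
  rw [norm_mul]
  exact mul_le_mul (Matrix.norm_entry_le_entrywise_sup_norm X)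
    (Matrix.norm_entry_le_entrywise_sup_norm Y) (norm_nonneg _) (norm_nonneg _)

theorem mnorm_one : ‖(1 : Matrix (Fin n) (Fin n) F)‖ ≤ 1 := by
  rw [Matrix.norm_le_iff zero_le_one]
  intro i j
  rw [Matrix.one_apply]
  split
  · simp
  · simp

theorem mnorm_smul (c : F) (X : Matrix (Fin n) (Fin n) F) : ‖c • X‖ ≤ ‖c‖ * ‖X‖ := by
  rw [Matrix.norm_le_iff (mul_nonneg (norm_nonneg _) (norm_nonneg _))]
  intro i j
  rw [Matrix.smul_apply, smul_eq_mul, norm_mul]
  exact mul_le_mul_of_nonneg_left (Matrix.norm_entry_le_entrywise_sup_norm X) (norm_nonneg _)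

/-- expansion of the powers of `1 + X` -/
theorem pow_expand (X : Matrix (Fin n) (Fin n) F) (hX : ‖X‖ ≤ 1) (m : ℕ) :
    ∃ Y : Matrix (Fin n) (Fin n) F, ‖Y‖ ≤ 1 ∧ (1 + X) ^ m = 1 + (m : F) • X + X * X * Y := by
  induction m with
  | zero => exact ⟨0, by simp, by simp⟩
  | succ m ih =>
    obtain ⟨Y, hY, h⟩ := ih
    refine ⟨(m : F) • 1 + (Y + Y * X), ?_, ?_⟩
    · refine (mnorm_add _ _).trans (max_le ?_ ((mnorm_add _ _).trans (max_le hY ?_)))
      · exact (mnorm_smul _ _).trans (mul_le_one₀ (IsUltrametricDist.norm_natCast_le_one F m)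
          (norm_nonneg _) mnorm_one)
      · exact (mnorm_mul _ _).trans (mul_le_one₀ hY (norm_nonneg _) hX)
    · rw [pow_succ, h, Nat.cast_succ, add_smul, one_smul]
      simp only [mul_add, add_mul, mul_one, one_mul, mul_smul_comm, smul_mul_assoc, mul_assoc]
      abel

theorem iso_mat {p : ℕ} (hp : ‖(p : F)‖ = 1) {X : Matrix (Fin n) (Fin n) F} (hX : ‖X‖ < 1)
    {s : ℝ} (hs : 0 < s) (h : ‖(1 + X) ^ p - 1‖ < s) : ‖X‖ < s := by
  obtain ⟨Y, hY, hXY⟩ := pow_expand X hX.le p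
  have hp0 : (p : F) ≠ 0 := by
    intro h0
    rw [h0, norm_zero] at hp
    exact zero_ne_one hp
  have h1 : X = (p : F)⁻¹ • (((1 + X) ^ p - 1) + (-(X * X * Y))) := by
    rw [hXY]
    have : 1 + (p : F) • X + X * X * Y - 1 + -(X * X * Y) = (p : F) • X := by abel
    rw [this, smul_smul, inv_mul_cancel₀ hp0, one_smul]
  have h2 : ‖X‖ ≤ max ‖(1 + X) ^ p - 1‖ (‖X‖ * ‖X‖) := by
    conv_lhs => rw [h1]
    refine (mnorm_smul _ _).trans ?_
    rw [norm_inv, hp, inv_one, one_mul]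
    refine (mnorm_add _ _).trans (max_le_max le_rfl ?_)
    rw [norm_neg]
    refine (mnorm_mul _ _).trans ?_
    calc ‖X * X‖ * ‖Y‖ ≤ ‖X * X‖ * 1 := mul_le_mul_of_nonneg_left hY (norm_nonneg _)
      _ = ‖X * X‖ := mul_one _
      _ ≤ ‖X‖ * ‖X‖ := mnorm_mul _ _
  rcases le_max_iff.mp h2 with h3 | h3
  · exact lt_of_le_of_lt h3 h
  · rcases (norm_nonneg X).eq_or_lt with h4 | h4
    · rw [← h4]; exact hs
    · exfalso
      have := mul_lt_mul_of_pos_left hX h4
      linarith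

/-- the congruence subgroups -/
def cong (n : ℕ) (F : Type*) [NontriviallyNormedField F] [IsUltrametricDist F] (r : ℝ)
    (hr : 0 < r ∧ r ≤ 1) : Subgroup (GL (Fin n) F) where
  carrier := {g | ‖(g : Matrix (Fin n) (Fin n) F) - 1‖ < r}
  mul_mem' := by
    intro a b ha hb
    change ‖(a : Matrix (Fin n) (Fin n) F) - 1‖ < r at ha
    change ‖(b : Matrix (Fin n) (Fin n) F) - 1‖ < r at hb
    change ‖((a * b : GL (Fin n) F) : Matrix (Fin n) (Fin n) F) - 1‖ < r
    have h1 : ((a * b : GL (Fin n) F) : Matrix (Fin n) (Fin n) F) - 1 =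
        ((a : Matrix (Fin n) (Fin n) F) - 1) * ((b : Matrix (Fin n) (Fin n) F) - 1) +
          (((a : Matrix (Fin n) (Fin n) F) - 1) + ((b : Matrix (Fin n) (Fin n) F) - 1)) := by
      rw [Units.val_mul, mul_sub, sub_mul, sub_mul, mul_one, one_mul, mul_one]
      abel
    rw [h1]
    refine lt_of_le_of_lt (mnorm_add _ _) (max_lt ?_ (lt_of_le_of_lt (mnorm_add _ _) (max_lt ha hb)))
    refine lt_of_le_of_lt (mnorm_mul _ _) ?_
    calc ‖(a : Matrix (Fin n) (Fin n) F) - 1‖ * ‖(b : Matrix (Fin n) (Fin n) F) - 1‖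
        ≤ 1 * ‖(b : Matrix (Fin n) (Fin n) F) - 1‖ :=
          mul_le_mul_of_nonneg_right (ha.le.trans hr.2) (norm_nonneg _)
      _ < r := by rw [one_mul]; exact hb
  one_mem' := by
    change ‖((1 : GL (Fin n) F) : Matrix (Fin n) (Fin n) F) - 1‖ < r
    simp [hr.1]
  inv_mem' := by
    intro a ha
    change ‖(a : Matrix (Fin n) (Fin n) F) - 1‖ < r at ha
    change ‖((a⁻¹ : GL (Fin n) F) : Matrix (Fin n) (Fin n) F) - 1‖ < r
    set X : Matrix (Fin n) (Fin n) F := (a : Matrix (Fin n) (Fin n) F) - 1 with hX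
    set Y : Matrix (Fin n) (Fin n) F := ((a⁻¹ : GL (Fin n) F) : Matrix (Fin n) (Fin n) F) - 1 with hY
    have h0 : (a : Matrix (Fin n) (Fin n) F) * ((a⁻¹ : GL (Fin n) F) : Matrix (Fin n) (Fin n) F) = 1 := by
      rw [← Units.val_mul, mul_inv_cancel, Units.val_one]
    have h1 : Y = -X + -(X * Y) := by
      have h2 : (1 + X) * (1 + Y) = 1 := by
        rw [hX, hY, add_sub_cancel, add_sub_cancel]; exact h0
      have h3 : (1 + X) * (1 + Y) = 1 + X + Y + X * Y := by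
        rw [mul_add, add_mul, add_mul, mul_one, mul_one, one_mul]; abel
      rw [h3] at h2
      have h4 : Y = (1 + X + Y + X * Y) - 1 - X - X * Y := by abel
      rw [h4, h2]
      have h5 : X * ((1 : Matrix (Fin n) (Fin n) F) - 1 - X - X * Y) =
        X * (1 + X + Y + X * Y - 1 - X - X * Y) := by rw [h2]
      rw [h5, ← h4]
      abel
    have h2 : ‖Y‖ ≤ max ‖X‖ (‖X‖ * ‖Y‖) := by
      conv_lhs => rw [h1]
      refine (mnorm_add _ _).trans (max_le_max (by rw [norm_neg]) (by rw [norm_neg]; exact mnorm_mul _ _))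
    rcases le_max_iff.mp h2 with h3 | h3
    · exact lt_of_le_of_lt h3 ha
    · rcases (norm_nonneg Y).eq_or_lt with h4 | h4
      · rw [← h4]; exact hr.1
      · exfalso
        have := mul_lt_mul_of_pos_right (lt_of_lt_of_le ha hr.2) h4
        linarith

theorem mem_cong {r : ℝ} {hr : 0 < r ∧ r ≤ 1} {g : GL (Fin n) F} :
    g ∈ cong n F r hr ↔ ‖(g : Matrix (Fin n) (Fin n) F) - 1‖ < r := Iff.rfl

theorem cong_norm {r s : ℝ} {hr : 0 < r ∧ r ≤ 1} {hs : 0 < s ∧ s ≤ 1} {v w : GL (Fin n) F}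
    (hv : v ∈ cong n F r hr) (hw : w ∈ cong n F s hs) : v * w * v⁻¹ ∈ cong n F s hs := by
  rw [mem_cong] at *
  have hb : ∀ u : GL (Fin n) F, u ∈ cong n F r hr → ‖(u : Matrix (Fin n) (Fin n) F)‖ ≤ 1 := by
    intro u hu
    rw [mem_cong] at hu
    have : (u : Matrix (Fin n) (Fin n) F) = ((u : Matrix (Fin n) (Fin n) F) - 1) + 1 := by abel
    rw [this]
    exact (mnorm_add _ _).trans (max_le (hu.le.trans hr.2) mnorm_one)
  have h1 := hb v hv
  have h2 := hb v⁻¹ ((cong n F r hr).inv_mem hv)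
  have h0 : (v : Matrix (Fin n) (Fin n) F) * ((v⁻¹ : GL (Fin n) F) : Matrix (Fin n) (Fin n) F) = 1 := by
    rw [← Units.val_mul, mul_inv_cancel, Units.val_one]
  have h3 : ((v * w * v⁻¹ : GL (Fin n) F) : Matrix (Fin n) (Fin n) F) - 1 =
      (v : Matrix (Fin n) (Fin n) F) * ((w : Matrix (Fin n) (Fin n) F) - 1) *
        ((v⁻¹ : GL (Fin n) F) : Matrix (Fin n) (Fin n) F) := by
    rw [Units.val_mul, Units.val_mul, mul_sub, sub_mul, mul_one, h0]
  rw [h3]
  refine lt_of_le_of_lt (mnorm_mul _ _) ?_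
  calc _ ≤ ‖(v : Matrix (Fin n) (Fin n) F) * ((w : Matrix (Fin n) (Fin n) F) - 1)‖ * 1 :=
        mul_le_mul_of_nonneg_left h2 (norm_nonneg _)
    _ ≤ ‖(v : Matrix (Fin n) (Fin n) F)‖ * ‖(w : Matrix (Fin n) (Fin n) F) - 1‖ := by
        rw [mul_one]; exact mnorm_mul _ _
    _ ≤ 1 * ‖(w : Matrix (Fin n) (Fin n) F) - 1‖ := mul_le_mul_of_nonneg_right h1 (norm_nonneg _)
    _ < s := by rw [one_mul]; exact hw

theorem cong_iso {p : ℕ} (hp : ‖(p : F)‖ = 1) {r s : ℝ} {hr : 0 < r ∧ r ≤ 1} {hs : 0 < s ∧ s ≤ 1}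
    {v : GL (Fin n) F} (hv : v ∈ cong n F r hr) (hw : v ^ p ∈ cong n F s hs) :
    v ∈ cong n F s hs := by
  rw [mem_cong] at *
  have h1 : (v : Matrix (Fin n) (Fin n) F) = 1 + ((v : Matrix (Fin n) (Fin n) F) - 1) := by abel
  refine iso_mat hp (lt_of_lt_of_le hv hr.2) hs.1 ?_
  rw [← h1, ← Units.val_pow_eq_pow_val]
  exact hw

theorem cong_mono {r s : ℝ} {hr : 0 < r ∧ r ≤ 1} {hs : 0 < s ∧ s ≤ 1} (h : s ≤ r) :
    cong n F s hs ≤ cong n F r hr := by
  intro g hg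
  rw [mem_cong] at *
  exact lt_of_lt_of_le hg h

theorem cong_open {r : ℝ} (hr : 0 < r ∧ r ≤ 1) :
    IsOpen (cong n F r hr : Set (GL (Fin n) F)) := by
  have h1 : (cong n F r hr : Set (GL (Fin n) F)) =
      ⋂ i, ⋂ j, {g : GL (Fin n) F | ‖((g : Matrix (Fin n) (Fin n) F) - 1) i j‖ < r} := by
    ext g
    simp only [Set.mem_iInter]
    change ‖(g : Matrix (Fin n) (Fin n) F) - 1‖ < r ↔ _
    rw [Matrix.norm_lt_iff hr.1]
    rfl
  rw [h1]
  apply isOpen_iInter_of_finite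
  intro i
  apply isOpen_iInter_of_finite
  intro j
  apply isOpen_lt _ continuous_const
  apply Continuous.norm
  have h2 : Continuous fun g : GL (Fin n) F => (g : Matrix (Fin n) (Fin n) F) :=
    Units.continuous_val
  have h3 : Continuous fun g : GL (Fin n) F => (g : Matrix (Fin n) (Fin n) F) i j :=
    h2.matrix_elem i j
  simp only [Matrix.sub_apply]
  exact h3.sub continuous_const

theorem cong_small {O : Set (GL (Fin n) F)} (hO : O ∈ 𝓝 (1 : GL (Fin n) F)) :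
    ∃ s, ∃ hs : 0 < s ∧ s ≤ 1, (cong n F s hs : Set (GL (Fin n) F)) ⊆ O := by
  rw [Units.isEmbedding_embedProduct.isInducing.nhds_eq_comap, Filter.mem_comap] at hO
  obtain ⟨T, hT, hTO⟩ := hO
  have h1 : Units.embedProduct (Matrix (Fin n) (Fin n) F) 1 =
      ((1 : Matrix (Fin n) (Fin n) F), (1 : (Matrix (Fin n) (Fin n) F)ᵐᵒᵖ)) := rfl
  rw [h1, nhds_prod_eq, Filter.mem_prod_iff] at hT
  obtain ⟨A, hA, B, hB, hAB⟩ := hT
  have hB' : MulOpposite.op ⁻¹' B ∈ 𝓝 (1 : Matrix (Fin n) (Fin n) F) := by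
    exact MulOpposite.continuous_op.continuousAt hB
  have hC := Filter.inter_mem hA hB'
  obtain ⟨ε, hε, hball⟩ := Metric.mem_nhds_iff.mp hC
  refine ⟨min ε 1, ⟨lt_min hε one_pos, min_le_right _ _⟩, ?_⟩
  intro g hg
  have hg1 : g ∈ cong n F (min ε 1) ⟨lt_min hε one_pos, min_le_right _ _⟩ := hg
  have hg2 := (cong n F (min ε 1) ⟨lt_min hε one_pos, min_le_right _ _⟩).inv_mem hg1
  rw [mem_cong] at hg1 hg2
  have h3 : (g : Matrix (Fin n) (Fin n) F) ∈ Metric.ball (1 : Matrix (Fin n) (Fin n) F) ε := by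
    rw [mem_ball_iff_norm]; exact lt_of_lt_of_le hg1 (min_le_left _ _)
  have h4 : ((g⁻¹ : GL (Fin n) F) : Matrix (Fin n) (Fin n) F) ∈
      Metric.ball (1 : Matrix (Fin n) (Fin n) F) ε := by
    rw [mem_ball_iff_norm]; exact lt_of_lt_of_le hg2 (min_le_left _ _)
  apply hTO
  apply hAB
  exact ⟨(hball h3).1, (hball h4).2⟩

theorem cong_cpt [ProperSpace F] {r : ℝ} (hr : 0 < r ∧ r ≤ 1) :
    IsCompact (cong n F r hr : Set (GL (Fin n) F)) := by
  let S : Set (Matrix (Fin n) (Fin n) F) :=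
    Set.pi Set.univ (fun i => Set.pi Set.univ (fun j => Metric.closedBall ((1 : Matrix (Fin n) (Fin n) F) i j) 1))
  have hS : IsCompact S := by
    apply isCompact_univ_pi
    intro i
    apply isCompact_univ_pi
    intro j
    exact isCompact_closedBall _ _
  have hS' : IsCompact (MulOpposite.unop ⁻¹' S : Set (Matrix (Fin n) (Fin n) F)ᵐᵒᵖ) := by
    exact (MulOpposite.opHomeomorph.symm.isCompact_preimage).mpr hS
  have hK := (Units.isClosedEmbedding_embedProduct (α := Matrix (Fin n) (Fin n) F)).isCompact_preimage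
    (hS.prod hS')
  have hmem : ∀ g : GL (Fin n) F, g ∈ cong n F r hr → (g : Matrix (Fin n) (Fin n) F) ∈ S := by
    intro g hg i _ j _
    rw [mem_cong] at hg
    rw [mem_closedBall_iff_norm]
    have h1 := (Matrix.norm_entry_le_entrywise_sup_norm ((g : Matrix (Fin n) (Fin n) F) - 1) (i := i) (j := j))
    rw [Matrix.sub_apply] at h1
    exact h1.trans (hg.le.trans hr.2)
  refine hK.of_isClosed_subset (Subgroup.isClosed_of_isOpen _ (cong_open hr)) ?_
  intro g hg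
  exact ⟨hmem g hg, hmem g⁻¹ ((cong n F r hr).inv_mem hg)⟩

end Pool.Agent.Q288.TV
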