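import Pool.Agent.Q288.TV.Adm

set_option linter.unusedSectionVars false

open Topology

namespace Pool.Agent.Q288.TV

variable {G : Type*} [Group G] [TopologicalSpace G]
variable {k V : Type*} [Field k] [AddCommGroup V] [Module k V]

/-- no invariant subspaces but the trivial ones -/
def Irred (ρ : Representation k G V) : Prop :=
  Nontrivial V ∧ ∀ W : Submodule k V, (∀ g, ∀ w ∈ W, ρ g w ∈ W) → W = ⊥ ∨ W = ⊤

variable [IsTopologicalGroup G]

theorem schur [IsAlgClosed k] {p : ℕ} {σ : G ≃* G}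
    (hG : ∀ O ∈ 𝓝 (1 : G), ∃ U : Subgroup G, Nice p σ U ∧ (U : Set G) ⊆ O)
    {ρ : Representation k G V} (hρ : IsAdmissible ρ) (hi : Irred ρ) {B : V →ₗ[k] V}
    (hB : ∀ g v, B (ρ g v) = ρ g (B v)) : ∃ c : k, ∀ v, B v = c • v := by
  obtain ⟨hnt, hirr⟩ := hi
  obtain ⟨v0, hv0⟩ := exists_ne (0 : V)
  obtain ⟨U, hU, hUv⟩ := hG _ ((hρ.1 v0).mem_nhds (show ρ 1 v0 = v0 by simp))
  have hfd : FiniteDimensional k (fixedVectors ρ U) := hρ.2 U hU.opn hU.cpt
  have hnt2 : Nontrivial (fixedVectors ρ U) := by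
    refine ⟨⟨⟨v0, fun g hg => hUv hg⟩, 0, ?_⟩⟩
    intro h
    exact hv0 (congrArg (fun z : fixedVectors ρ U => (z : V)) h)
  have hres : ∀ v ∈ fixedVectors ρ U, B v ∈ fixedVectors ρ U := by
    intro v hv g hg
    rw [← hB, hv g hg]
  obtain ⟨c, hc⟩ := Module.End.exists_eigenvalue (B.restrict hres)
  obtain ⟨w, hw⟩ := hc.exists_hasEigenvector
  have hw1 : B (w : V) = c • (w : V) := by
    have := hw.apply_eq_smul
    exact congrArg (fun z : fixedVectors ρ U => (z : V)) this
  have hw0 : (w : V) ≠ 0 := by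
    intro h
    exact hw.2 (Subtype.ext h)
  refine ⟨c, fun v => ?_⟩
  have h1 := hirr (LinearMap.ker (B - c • (1 : V →ₗ[k] V))) (by
    intro g u hu
    rw [LinearMap.mem_ker] at hu ⊢
    simp only [LinearMap.sub_apply, LinearMap.smul_apply, Module.End.one_apply] at hu ⊢
    rw [hB, ← map_smul, ← map_sub, hu, map_zero])
  rcases h1 with h1 | h1
  · exfalso
    apply hw0
    have h2 : (w : V) ∈ LinearMap.ker (B - c • (1 : V →ₗ[k] V)) := by
      rw [LinearMap.mem_ker]
      simp only [LinearMap.sub_apply, LinearMap.smul_apply, Module.End.one_apply]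
      rw [hw1, sub_self]
    rw [h1] at h2
    exact h2
  · have h2 : v ∈ LinearMap.ker (B - c • (1 : V →ₗ[k] V)) := by rw [h1]; trivial
    rw [LinearMap.mem_ker] at h2
    simp only [LinearMap.sub_apply, LinearMap.smul_apply, Module.End.one_apply] at h2
    exact sub_eq_zero.mp h2

/-- the action extends uniquely to the semidirect product with `⟨σ⟩` -/
theorem extends_unique [IsAlgClosed k] {p : ℕ} [hp : Fact p.Prime] [CharP k p] {σ : G ≃* G}
    (hσ : ∀ g, σ^[p] g = g)
    (hG : ∀ O ∈ 𝓝 (1 : G), ∃ U : Subgroup G, Nice p σ U ∧ (U : Set G) ⊆ O)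
    {ρ : Representation k G V} (hρ : IsAdmissible ρ) (hi : Irred ρ) (B : V ≃ₗ[k] V)
    (hB : ∀ g v, B (ρ g v) = ρ (σ g) (B v)) :
    ∃! A : V →ₗ[k] V, A ^ p = 1 ∧ ∀ g v, A (ρ g v) = ρ (σ g) (A v) := by
  have hnt := hi.1
  have hB' : ∀ g v, (B : V →ₗ[k] V) (ρ g v) = ρ (σ g) ((B : V →ₗ[k] V) v) := hB
  obtain ⟨c, hc⟩ := schur hG hρ hi (B := (B : V →ₗ[k] V) ^ p) (by
    intro g v
    rw [pow_comm hB', hσ])
  have hinj : ∀ i : ℕ, Function.Injective (((B : V →ₗ[k] V) ^ i : V →ₗ[k] V)) := by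
    intro i
    induction i with
    | zero => intro a b h; simpa using h
    | succ i ih =>
      intro a b h
      rw [pow_succ', Module.End.mul_apply, Module.End.mul_apply] at h
      exact ih (B.injective h)
  have hc0 : c ≠ 0 := by
    intro h
    obtain ⟨v0, hv0⟩ := exists_ne (0 : V)
    apply hv0
    apply hinj p
    rw [hc, h, zero_smul, map_zero]
  obtain ⟨d, hd⟩ := IsAlgClosed.exists_pow_nat_eq c hp.out.pos
  have hd0 : d ≠ 0 := by
    intro h
    rw [h, zero_pow hp.out.ne_zero] at hd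
    exact hc0 hd.symm
  refine ⟨d⁻¹ • (B : V →ₗ[k] V), ⟨?_, ?_⟩, ?_⟩
  · apply LinearMap.ext
    intro v
    rw [smul_pow, LinearMap.smul_apply, hc, smul_smul, inv_pow, hd, inv_mul_cancel₀ hc0, one_smul]
    rfl
  · intro g v
    rw [LinearMap.smul_apply, LinearMap.smul_apply, hB', map_smul]
  · intro A' hA'
    set A : V →ₗ[k] V := d⁻¹ • (B : V →ₗ[k] V) with hAdef
    have hA1 : A ^ p = 1 := by
      apply LinearMap.ext
      intro v
      rw [hAdef, smul_pow, LinearMap.smul_apply, hc, smul_smul, inv_pow, hd, inv_mul_cancel₀ hc0,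
        one_smul]
      rfl
    have hA2 : ∀ g v, A (ρ g v) = ρ (σ g) (A v) := by
      intro g v
      rw [hAdef, LinearMap.smul_apply, LinearMap.smul_apply, hB', map_smul]
    have hp1 : p - 1 + 1 = p := Nat.sub_add_cancel hp.out.one_lt.le
    obtain ⟨e, he⟩ := schur hG hρ hi (B := A' * A ^ (p - 1)) (by
      intro g v
      rw [Module.End.mul_apply, pow_comm hA2, hA'.2, ← Function.iterate_succ_apply' (f := σ),
        Nat.succ_eq_add_one, hp1, hσ]
      rfl)
    have h1 : A' = e • A := by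
      have h2 : A' = A' * A ^ (p - 1) * A := by
        rw [mul_assoc, ← pow_succ, hp1, hA1, mul_one]
      apply LinearMap.ext
      intro v
      conv_lhs => rw [h2]
      rw [Module.End.mul_apply, he]
      rfl
    have h3 : e ^ p = 1 := by
      have h4 := hA'.1
      rw [h1, smul_pow, hA1] at h4
      obtain ⟨v0, hv0⟩ := exists_ne (0 : V)
      have h5 : e ^ p • v0 = (1 : k) • v0 := by
        rw [one_smul]
        exact LinearMap.congr_fun h4 v0
      exact smul_left_injective k hv0 h5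
    have h4 : e = 1 := by
      have h5 : (e - 1) ^ p = 0 := by rw [sub_pow_char, h3, one_pow, sub_self]
      exact sub_eq_zero.mp (pow_eq_zero_iff hp.out.ne_zero |>.mp h5)
    rw [h1, h4, one_smul]

end Pool.Agent.Q288.TV
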